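import Pool.Agent.R427.TS6

/-!
# Elliptic surfaces `y ^ 2 + (p - q - r) x y + p q r y = x ^ 3` over all curves

Let `p`, `q`, `r` be three irreducible polynomials over a finite field `k`, pairwise non-associated. We
bound, for all function fields `K` over `k` and all non-constant `h` in `K`, the rank and the order of
vanishing of the `L`-function of the elliptic curve
`y ^ 2 + (p - q - r)(h) x y + (p q r)(h) y = x ^ 3` over `K` from below and from above.
-/

set_option autoImplicit false
set_option linter.all false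
set_option maxHeartbeats 4000000

open Polynomial Pool.Agent.W343.BSD Pool.Agent.W313.Gr

namespace Pool.Agent.Results.MP_8ac872_ag.ThreeSplitFibres

section defs

/-- The coefficient of `x` of the short form of `y ^ 2 + e x y + f y = x ^ 3`. -/
def coeffA {R : Type} [CommRing R] (e f : R) : R := -27 * (e ^ 4 - 24 * e * f)

/-- The constant coefficient of the short form of `y ^ 2 + e x y + f y = x ^ 3`. -/
def coeffB {R : Type} [CommRing R] (e f : R) : R := 54 * (e ^ 6 - 36 * e ^ 3 * f + 216 * f ^ 2)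

variable {k K : Type} [Field k] [Field K] [Algebra k K]

/-- The polynomials `p`, `q`, `r` are irreducible and pairwise non-associated. -/
def Distinct (p q r : k[X]) : Prop :=
  (Irreducible p ∧ Irreducible q ∧ Irreducible r) ∧
    ¬ Associated p q ∧ ¬ Associated p r ∧ ¬ Associated q r

/-- The polynomials `p`, `q`, `r` are irreducible, pairwise non-associated, `p - q - r` is prime to
`p q r`, its degree is at most a third of the degree of `p q r`, which is divisible by three, and if three
divides `|k| - 1` then `(p - q - r) ^ 3 - 27 p q r` is not a cube. -/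
def Admissible (p q r : k[X]) : Prop :=
  Distinct p q r ∧ IsCoprime (p - q - r) (p * q * r) ∧ 3 ∣ (p * q * r).natDegree ∧
    3 * (p - q - r).natDegree ≤ (p * q * r).natDegree ∧
    (3 ∣ Nat.card k - 1 → ∀ z : k[X], z ^ 3 ≠ (p - q - r) ^ 3 - 27 * (p * q * r))

open Classical in
/-- The sum of `3 ^ v₃(deg v)` over the zeros `v` of `g` (without multiplicities). -/
noncomputable def zeroSum (k : Type) {K : Type} [Field k] [Field K] [Algebra k K] (g : K) : ℕ :=
  ∑ᶠ v : FF.Place k K, if 0 < v.ord g then 3 ^ padicValNat 3 (S.deg v) else 0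

open Classical in
/-- The sum of `3 ^ v₃(deg v)` over the zeros `v` of `g` (without multiplicities) for which the order
`q_v = |k| ^ deg v` of the residue field is congruent to `1` modulo three. -/
noncomputable def zeroSumOne (k : Type) {K : Type} [Field k] [Field K] [Algebra k K] (g : K) : ℕ :=
  ∑ᶠ v : FF.Place k K, if 0 < v.ord g then
    (if 3 ∣ Nat.card k ^ S.deg v - 1 then 3 ^ padicValNat 3 (S.deg v) else 0) else 0

open Classical in
/-- The weight: the zeros of `(p q r)(h)`, the zeros of `((p - q - r) ^ 3 - 27 p q r)(h)` with `q_v`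
congruent to `1` modulo three, and, if the degree of `(p - q - r) ^ 3 - 27 p q r` is smaller than that of
`p q r`, the poles of `h` with `q_v` congruent to `1` modulo three. -/
noncomputable def weight (p q r : k[X]) (h : K) : ℕ :=
  zeroSum k (aeval h (p * q * r)) +
    zeroSumOne k (aeval h ((p - q - r) ^ 3 - 27 * (p * q * r))) +
      (if ((p - q - r) ^ 3 - 27 * (p * q * r)).natDegree < (p * q * r).natDegree then
        zeroSumOne k h⁻¹ else 0)

/-- `4` if `|k|` is congruent to `1` modulo three and `2` otherwise. -/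
noncomputable def shift (k : Type) : ℕ := if 3 ∣ Nat.card k - 1 then 4 else 2

/-- `L(T, E)` is `(1 - |k| T) ^ m G(T)`. -/
def LIs (k : Type) {K : Type} [Field k] [Field K] [Algebra k K] (a b : K) (m : ℕ) (G : ℤ[X]) :
    Prop :=
  S.Lfun k a b = (((1 - C (Nat.card k : ℤ) * X) ^ m * G : ℤ[X]) : PowerSeries ℤ)

/-- The rational number `G(1 / |k|)` is not zero and its `3`-adic valuation is zero. -/
def UnitAt (k : Type) (G : ℤ[X]) : Prop :=
  (G.map (Int.castRingHom ℚ)).eval ((Nat.card k : ℕ) : ℚ)⁻¹ ≠ 0 ∧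
    padicValRat 3 ((G.map (Int.castRingHom ℚ)).eval ((Nat.card k : ℕ) : ℚ)⁻¹) = 0

/-- The rank is at least one. If `L(T, E) = (1 - |k| T) ^ m G(T)` with `G` in `ℤ[T]`, then `m ≤ 1`, and if
`m = 1` then `UnitAt` holds for `G`. If `L(T, E)` is a polynomial with order of vanishing `r` at
`1 / |k|` then `r ≤ 1`, and if the rank is at most `r` then `r` and the rank are one. -/
def RankOne (k : Type) {K : Type} [Field k] [Field K] [Algebra k K] (a b : K) : Prop :=
  1 ≤ rank a b ∧ (∀ (m : ℕ) (G : ℤ[X]), LIs k a b m G → m ≤ 1 ∧ (m = 1 → UnitAt k G)) ∧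
    ∀ r : ℕ, HasOrder k a b r → r ≤ 1 ∧ (rank a b ≤ r → r = 1 ∧ rank a b = 1)

/-- `y ^ 2 = x ^ 3 + a x + b` is an elliptic curve with a non-constant `j`-invariant
`6912 a ^ 3 / (4 a ^ 3 + 27 b ^ 2)`. -/
def NonIsotrivial (k : Type) {K : Type} [Field k] [Field K] [Algebra k K] (a b : K) : Prop :=
  4 * a ^ 3 + 27 * b ^ 2 ≠ 0 ∧
    ∀ c : k, 6912 * a ^ 3 / (4 * a ^ 3 + 27 * b ^ 2) ≠ algebraMap k K c

open Classical in
/-- The curve `y ^ 2 = x ^ 3 + a x + b` has a `K`-rational point of order three. -/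
def HasOrderThree {K : Type} [Field K] (a b : K) : Prop :=
  ∃ P : (curve a b).toAffine.Point, P ≠ 0 ∧ (3 : ℕ) • P = 0

/-- The coefficients of the curve `E_h`. -/
noncomputable def hA (p q r : k[X]) (h : K) : K := coeffA (aeval h (p - q - r)) (aeval h (p * q * r))

/-- The coefficients of the curve `E_h`. -/
noncomputable def hB (p q r : k[X]) (h : K) : K := coeffB (aeval h (p - q - r)) (aeval h (p * q * r))

/-- The curve `E_h` has a non-constant `j`-invariant, a point of order three and rank at least one. If `P`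
is the numerator of the zeta function of `K` and `N = rootSum P` the number of its roots `1` and `1 / |k|`
modulo three (zero if three does not divide the class number), then for all `m`, `G` with
`L(T, E_h) = (1 - |k| T) ^ m G(T)`, `G` in `ℤ[T]`, we have `m + shift ≤ N + weight`, and if
`N + weight ≤ 1 + shift` then `RankOne` holds. -/
def Conclusions (p q r : k[X]) (h : K) : Prop :=
  NonIsotrivial k (hA p q r h) (hB p q r h) ∧ HasOrderThree (hA p q r h) (hB p q r h) ∧
    1 ≤ rank (hA p q r h) (hB p q r h) ∧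
    ∀ P : ℤ[X], S.IsZetaNum k K P → (¬ 3 ∣ S.classNumber k K → rootSum 3 k P = 0) ∧
      (∀ (m : ℕ) (G : ℤ[X]), LIs k (hA p q r h) (hB p q r h) m G →
        m + shift k ≤ rootSum 3 k P + weight p q r h) ∧
      (rootSum 3 k P + weight p q r h ≤ 1 + shift k → RankOne k (hA p q r h) (hB p q r h))

end defs

section proof

open Pool.Agent.R427

theorem shift_eq (k : Type) [Field k] [Finite k] :
    shift k = 2 + 2 * (if ((Nat.card k : ℕ) : ZMod 3) = 1 then 1 else 0) := by
  have h4 : (((Nat.card k : ℕ) : ZMod 3) = 1) ↔ 3 ∣ Nat.card k - 1 := by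
    have hpos : 1 ≤ Nat.card k := Nat.card_pos
    rw [← ZMod.natCast_eq_zero_iff, Nat.cast_sub hpos, Nat.cast_one, sub_eq_zero]
  unfold shift
  simp only [h4]
  split_ifs <;> rfl

theorem numRoots_zero {l : ℕ} [Fact l.Prime] {k K : Type} [Field k] [Finite k] [Field K]
    [Algebra k K] (hK : IsCurveField k K) (hlk : ((l : ℕ) : k) ≠ 0) {P : Polynomial ℤ}
    (hP : S.IsZetaNum k K P) (hcl : ¬ l ∣ S.classNumber k K) : rootSum l k P = 0 := by
  haveI : FF.IsFF k K := ⟨hK.essFiniteType, hK.trdeg_eq_one⟩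
  have hr : constDeg k K = 1 := TH958.T4.constDeg_eq_one hK.algClosed
  have hcl' : ¬ l ∣ classNumber k K := by rwa [← S.classNumber_eq]
  have hconst : ∀ a : K, IsAlgebraic k a → a ∈ (algebraMap k K).range := hK.algClosed
  obtain ⟨Q, hQ, hQ1⟩ := exists_num k K hconst
  have hPQ : P = Q := by
    have h1 := (S.isZetaNum_iff P).1 hP
    unfold IsZetaNumRel at h1
    unfold IsZetaNum at hQ
    rw [hr, pow_one, pow_one] at h1
    have h2 := h1.trans hQ.symm
    apply Polynomial.coe_injective
    refine mul_right_cancel₀ (fun h0 => ?_) h2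
    rw [h0, mul_zero] at h1
    have h3 := congrArg (PowerSeries.constantCoeff (R := ℤ)) h1
    simp at h3
  subst hPQ
  have e1 := AQ.eval_inv_ne (l := l) hlk hconst hQ hcl'
  unfold rootSum
  rw [Polynomial.rootMultiplicity_eq_zero e1, Polynomial.rootMultiplicity_eq_zero, add_zero]
  intro h0
  rw [IsRoot.def, Polynomial.eval_one_map, hQ1, eq_intCast, ZMod.intCast_zmod_eq_zero_iff_dvd] at h0
  exact hcl' (by exact_mod_cast h0)

theorem rank_alt {k : Type} [Field k] [Finite k] (h6 : (6 : k) ≠ 0) {p q r : k[X]}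
    (h : Admissible p q r) :
    (∀ z : RatFunc k, z ^ 2 ≠ -3) ∨ ∀ z : k[X], z ^ 3 ≠ (p - q - r) ^ 3 - 27 * (p * q * r) := by
  by_cases hd : 3 ∣ Nat.card k - 1
  · exact Or.inr (h.2.2.2.2 hd)
  · left
    have hpos : 1 < Nat.card k := Finite.one_lt_card
    have h3 : ¬ 3 ∣ Nat.card k := by
      intro h3
      have h3k : (3 : k) ≠ 0 := fun e => h6 (by linear_combination 2 * e)
      apply card_ne_zero_mod (l := 3) (k := k) (by exact_mod_cast h3k)
      exact (ZMod.natCast_eq_zero_iff _ _).2 h3
    exact TS.neg_three h6 (by omega)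

theorem common {k K : Type} [Field k] [Finite k] [Field K] [Algebra k K] (h6 : (6 : k) ≠ 0)
    (hK : IsCurveField k K) {p q r : k[X]} (ha : Admissible p q r) {h : K}
    (hh : ∀ c : k, h ≠ algebraMap k K c) : Conclusions p q r h := by
  haveI : FF.IsFF k K := ⟨hK.essFiniteType, hK.trdeg_eq_one⟩
  haveI : Fact (Nat.Prime 3) := ⟨Nat.prime_three⟩
  have hr : constDeg k K = 1 := TH958.T4.constDeg_eq_one hK.algClosed
  have htr := TH180.R2.transc hr hh
  have h2 : (2 : k) ≠ 0 := fun e => h6 (by linear_combination 3 * e)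
  have h3 : (3 : k) ≠ 0 := fun e => h6 (by linear_combination 2 * e)
  have h2K : (2 : K) ≠ 0 := by
    have : algebraMap k K 2 ≠ 0 := by simpa using h2
    rwa [map_ofNat] at this
  have h3K : (3 : K) ≠ 0 := by
    have : algebraMap k K 3 ≠ 0 := by simpa using h3
    rwa [map_ofNat] at this
  have h3' : ((3 : ℕ) : k) ≠ 0 := by exact_mod_cast h3
  have hrk := rank_alt h6 ha
  obtain ⟨⟨⟨ip, iq, ir⟩, npq, npr, nqr⟩, hcop, ⟨m0, hm0⟩, hde, -⟩ := ha
  have hf0 : p * q * r ≠ 0 := mul_ne_zero (mul_ne_zero ip.ne_zero iq.ne_zero) ir.ne_zero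
  have hm0p : 0 < m0 := by
    have h5 : 0 < (p * q * r).natDegree := by
      rw [natDegree_mul (mul_ne_zero ip.ne_zero iq.ne_zero) ir.ne_zero,
        natDegree_mul ip.ne_zero iq.ne_zero]
      have := ip.natDegree_pos
      omega
    omega
  have hg0 : TS.gg (p - q - r) (p * q * r) ≠ 0 := by
    intro h0
    have h27 : (27 : k) ≠ 0 := by
      have : (27 : k) = 3 ^ 3 := by norm_num
      rw [this]
      exact pow_ne_zero 3 h3
    apply TS.not_cube ip iq ir npq npr h27 (p - q - r)
    rw [show (C 27 : k[X]) = 27 from rfl]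
    unfold TS.gg at h0
    linear_combination h0
  have hΔ := TS.disc_ne' (K := K) h6 hf0 hg0 htr
  have hfK : aeval h (p * q * r) ≠ 0 := TH180.R4.aeval_ne htr hf0
  have hN := TH639.B3.pointsDvd_three h6 (TS.isT3 _ _) hΔ
  have hw := TS.sum_gen (K := K) h6 (m := m0) (by omega) hm0 hf0 hg0 hm0p hcop htr
  have hw' : weightSum 3 k (hA p q r h) (hB p q r h) ≤ weight p q r h := hw
  have hrank : 1 ≤ rank (hA p q r h) (hB p q r h) :=
    TS.rank_pull' (K := K) h2 h3 hrk ip iq ir npq npr nqr htr
  refine ⟨⟨hΔ, fun c hc => TS.noniso_K h2 h3 ip iq ir npq npr hcop htr c ((div_eq_iff hΔ).1 hc)⟩,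
    TS.three_tors' h2K h3K hfK, hrank, fun P hP => ⟨fun hcl => numRoots_zero hK h3' hP hcl, ?_, ?_⟩⟩
  · intro m G hG
    have h5 := (LC.main (l := 3) h3' hΔ hN ((S.isZetaNum_iff P).1 hP) hr hG).1
    rw [← shift_eq] at h5
    have h7 : m + shift k ≤ rootSum 3 k P + weightSum 3 k (hA p q r h) (hB p q r h) := h5
    omega
  · intro hle
    have h8 : rootSum 3 k P + weightSum 3 k (hA p q r h) (hB p q r h) ≤
        1 + (2 + 2 * (if ((Nat.card k : ℕ) : ZMod 3) = 1 then 1 else 0)) := by
      rw [← shift_eq]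
      omega
    have key : ∀ (m : ℕ) (G : ℤ[X]), LIs k (hA p q r h) (hB p q r h) m G →
        m ≤ 1 ∧ (m = 1 → UnitAt k G) := fun m G hG =>
      LC.fam (l := 3) h3' hΔ hN ((S.isZetaNum_iff P).1 hP) hr h8 hG
    refine ⟨hrank, key, fun r' hr' => ?_⟩
    have h9 : ((1 : ℕ) : Cardinal) ≤ rank (hA p q r h) (hB p q r h) := by
      rw [Nat.cast_one]
      exact hrank
    obtain ⟨h10, h11⟩ := TH180.R4.concl4 h9 (fun m hm => by
      obtain ⟨G, hG⟩ := hm
      exact (key m G hG).1) r' hr'
    refine ⟨h10, fun hle => ?_⟩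
    obtain ⟨h12, h13⟩ := h11 hle
    exact ⟨h12, by rw [h13, Nat.cast_one]⟩

theorem rootSum_one (l : ℕ) [Fact l.Prime] (k : Type) : rootSum l k 1 = 0 := by
  unfold rootSum
  rw [Polynomial.map_one]
  have h : ∀ x : ZMod l, (1 : (ZMod l)[X]).rootMultiplicity x = 0 := by
    intro x
    apply rootMultiplicity_eq_zero
    rw [IsRoot.def, eval_one]
    exact one_ne_zero
  rw [h, h]

theorem poly_nonconst {k : Type} [Field k] {g : k[X]} (hg : 0 < g.natDegree) (c : k) :
    algebraMap k[X] (RatFunc k) g ≠ algebraMap k (RatFunc k) c := by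
  intro hz
  have h1 : g = C c := RatFunc.algebraMap_injective k hz
  rw [h1, natDegree_C] at hg
  exact lt_irrefl _ hg

end proof

/-- Let `k` be a finite field of characteristic at least five. For polynomials `p`, `q`, `r` over `k`, a
function field `K` over `k` and `h` in `K` let `E_h` be the curve `y ^ 2 = x ^ 3 + A x + B`, the short
form of `y ^ 2 + e x y + f y = x ^ 3` with `e = (p - q - r)(h)` and `f = (p q r)(h)`.

(1) If `(p, q, r)` is admissible, `K` is the function field of a curve over `k` and `h` in `K` is not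
constant, then `E_h` has a non-constant `j`-invariant, a point of order three and rank at least one, its
`L`-function vanishes at `s = 1` to order at most `N + W - s`, where `N` is the number of the roots `1`
and `1 / |k|` modulo three of the numerator of the zeta function of `K` (zero if three does not divide the
class number), `W` is the weight and `s` is `4` if three divides `|k| - 1` and `2` otherwise. If
`N + W - s` is at most one, then the order is at most one, both the rank and the order are one if the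
rank is at most the order, and the leading coefficient of the `L`-function is a `3`-adic unit.

(2) If `u` in `k` is not a root of `u (u + 1) (u - 1) (u + 2) (2 u + 1) (u ^ 2 + u + 1)` then
`p = 1 + u ^ 3 t`, `q = -(1 + t)`, `r = -(1 - (u + 1) ^ 3 t)` is admissible, and if `l ≥ 5` is a prime
dividing `|k| - 1` then for some `c` in `k`, not zero, `RankOne` holds for `K = k(t)` and
`h = c t ^ (l ^ j)`, for all `j`. -/
theorem result (k : Type) [Field k] [Finite k] (h6 : (6 : k) ≠ 0) :
    (∀ p q r : k[X], Admissible p q r → ∀ (K : Type) [Field K] [Algebra k K], IsCurveField k K →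
      ∀ h : K, (∀ c : k, h ≠ algebraMap k K c) → Conclusions p q r h) ∧
    ∀ u : k, u * (u + 1) * (u - 1) * (u + 2) * (2 * u + 1) * (u ^ 2 + u + 1) ≠ 0 →
      Admissible (1 + C (u ^ 3) * X) (-(1 + C 1 * X)) (-(1 + C (-(u + 1) ^ 3) * X)) ∧
      ∀ l : ℕ, l.Prime → 5 ≤ l → l ∣ Nat.card k - 1 → ∃ c : k, c ≠ 0 ∧ ∀ j : ℕ,
        RankOne k
          (hA (1 + C (u ^ 3) * X) (-(1 + C 1 * X)) (-(1 + C (-(u + 1) ^ 3) * X))
            (algebraMap k[X] (RatFunc k) (C c * X ^ l ^ j)))
          (hB (1 + C (u ^ 3) * X) (-(1 + C 1 * X)) (-(1 + C (-(u + 1) ^ 3) * X))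
            (algebraMap k[X] (RatFunc k) (C c * X ^ l ^ j))) := by
  have h3 : (3 : k) ≠ 0 := fun e => h6 (by linear_combination 2 * e)
  refine ⟨fun p q r ha K _ _ hK h hh => common h6 hK ha hh, fun u hu => ?_⟩
  have hom := right_ne_zero_of_mul hu
  have hu' := left_ne_zero_of_mul hu
  obtain ⟨i1, i2, i3, n1, n2, n3, hcop, hd3, hd1, hnc⟩ := Pool.Agent.R427.TS.L_facts h3 hu' hom
  have hadm : Admissible (1 + C (u ^ 3) * X) (-(1 + C 1 * X)) (-(1 + C (-(u + 1) ^ 3) * X)) := by
    refine ⟨⟨⟨i1, i2, i3⟩, n1, n2, n3⟩, hcop, ?_, ?_, fun _ => hnc⟩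
    · exact (show (3 : ℕ) ∣ 3 from dvd_refl 3).trans (dvd_of_eq hd3.symm)
    · have h5 : (Pool.Agent.R427.TS.L1 u * Pool.Agent.R427.TS.L2 k *
        Pool.Agent.R427.TS.L3 u).natDegree = 3 := hd3
      have h7 : 3 * (Pool.Agent.R427.TS.L1 u - Pool.Agent.R427.TS.L2 k -
          Pool.Agent.R427.TS.L3 u).natDegree ≤ (Pool.Agent.R427.TS.L1 u *
          Pool.Agent.R427.TS.L2 k * Pool.Agent.R427.TS.L3 u).natDegree := by
        omega
      exact h7
  refine ⟨hadm, fun l hl hl5 hd => ?_⟩
  obtain ⟨c, hc, hj⟩ := Pool.Agent.R427.TS.exists_L h3 hu' hom hl hl5 hd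
  refine ⟨c, hc, fun j => ?_⟩
  have hmd : (C c * X ^ l ^ j : k[X]).natDegree = l ^ j := natDegree_C_mul_X_pow _ _ hc
  have hpos : 0 < (C c * X ^ l ^ j : k[X]).natDegree := by rw [hmd]; exact pow_pos hl.pos j
  haveI : Fact (Nat.Prime 3) := ⟨Nat.prime_three⟩
  have h1 := (common h6 Pool.Agent.TH958.T4.isCurveField_rat hadm
    (poly_nonconst hpos)).2.2.2 1 Pool.Agent.W309.RF.isZetaNum_rat
  apply h1.2.2
  rw [rootSum_one, zero_add]
  exact hj j

end Pool.Agent.Results.MP_8ac872_ag.ThreeSplitFibres
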