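import Pool.Agent.R915.It.Cnt
import Pool.Agent.R915.It.Ex

/-!
# The Tate conjecture for all composites of the polynomials `tᵐ + c` over finite fields

Let `k` be a finite field with `q` elements, `q` odd, `K = k(t)`, `F = k^sep(t)`, and let
`E : y² = x (x² + a x + b)` be an elliptic curve over `K`, `a`, `b` polynomials. `TateAtTwo` says that
all the classes in `V₂ Sel(E / F)` which are fixed by the Galois group of `k` come from `E(K)`: the Tate
conjecture for divisors at the prime 2 on the elliptic surface over the projective line with generic
fibre `E`; over a finite field this gives both equalities of the conjecture for all primes, the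
finiteness of the Brauer group and the conjecture of Birch and Swinnerton-Dyer for `E`.

Theorem. Let `b` and `a² - 4 b` satisfy the condition `NotNorm` (not a constant times a square or times
a norm of a polynomial over the quadratic extension of `k`), and let `OnlyTrivial` hold for `(a, b)` and
for `(-2 a, a² - 4 b)`, the curve isogenous to `E`; all this holds for example if `b` and `a² - 4 b` are
irreducible of odd degree.

(1) Let `D ≠ 0` be a polynomial (for example `D = 1`) such that `b` and `a² - 4 b` are not squares modulo
any prime which divides `D`, `M` a set of prime numbers and `S` a subring of `k` (for example `k`) such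
that the values at the elements of `S` of the monic prime factors of `b (a² - 4 b) D` are not `ℓ`-th
powers in `k`, for all `ℓ` in `M`. Then for ALL the polynomials `h` which are composites of polynomials
`tᵐ + c`, with arbitrary `c` in `S` and odd `m` whose prime factors are in `M`, the Tate conjecture holds
for the base change by `t ↦ h(t)` of the twist of `E` by `D`, and for its twists by constants.

(2) Let `ℓ` be an odd prime which divides `q - 1` and `S` a subring of `k` with `s` elements, let
`b (a² - 4 b)` be not a constant times a square, and let its monic prime factors have no `ℓ`-th powers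
among their values at the elements of `S`. Then for each `η > 0` and all `n ≥ n₀(η)` there are at least
`((1 - s / ℓ) / 4 - η) q ^ n / n` monic irreducible polynomials `D` of degree `n` (there are about
`q ^ n / n` such polynomials) such that for ALL the composites `h` of polynomials `t ^ (ℓ ^ j) + c` with
`c` in `S` the Tate conjecture at 2 holds for the base change by `t ↦ h(t)` of the twist
`y² = x (x² + a D x + b D²)`, and for its twists by constants.

Example for (1) (`Pool.Agent.R915.It.example7F`): over the field with seven elements, for ALL the
composites `h` of polynomials `t ^ (3 ^ j) + c` and all `e ≠ 0` the Tate conjecture holds for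
`y² = x (x² + 2 e x + e² (h(t)³ + 4))`.

So for about `(1 - s / ℓ) / 4` of the twists by primes the conjecture holds at all the layers of all the
towers of covers of the line defined by the iteration of the polynomials `t ^ ℓ + c`, `c` in `S`.

Proof. The criterion of `Pool.Agent.R939.EI.Tw1` applies if the primes which divide `b (a² - 4 b) D`
remain prime after `t ↦ h(t)`, and this is controlled by their values at the critical orbits
(`Pool.Agent.R915.It.irr_composite`). For (2) the value `D(w)` is the norm of `w - x` for a root `x` of
`D`, so it is an `ℓ`-th power if and only if `w - x` is; the points `x` of the extension of `k` of degree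
`n` at which `b` and `a² - 4 b` take values which are not squares are counted with the bound of Weil, and
so are the `y` such that `x = w - y ^ ℓ` has this property.
-/

namespace Pool.Agent.Results.MP_8ac872_ag.CompositeCovers

open Polynomial Pool.Agent.TH115.GD Pool.Agent.R939.EI Pool.Agent.R915.It

/-- The Tate conjecture at 2 for the base changes by all composites `h` of the polynomials `tᵐ + c`, and
the twists by all constants `e`, of the curve `y² = x (x² + a x + b)`. -/
def TateForComposites {k : Type} [Field k] (k' K F : Type) [Field k'] [Algebra k k'] [Field K]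
    [Algebra k[X] K] [Field F] [Algebra k'[X] F] [IsFractionRing k'[X] F] [Algebra K F]
    (M : Set ℕ) (S : Set k) (a b : k[X]) : Prop :=
  ∀ h : k[X], IsComposite M S h → ∀ e : k, e ≠ 0 →
    TateAtTwo (F := F) k' (crvT (algebraMap k[X] K ((C e * a).comp h))
      (algebraMap k[X] K ((C (e ^ 2) * b).comp h)))

/-- The conditions on `a` and `b`. -/
def Good {k : Type} [Field k] (a b : k[X]) : Prop :=
  NotNorm b ∧ NotNorm (a ^ 2 - 4 * b) ∧ OnlyTrivial a b ∧ OnlyTrivial (-2 * a) (a ^ 2 - 4 * b)

theorem result {k k' K F : Type} [Field k] [Fintype k] [Field k'] [Algebra k k'] [Field K]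
    [Algebra k[X] K] [Field F] [Algebra k'[X] F] [IsFractionRing k'[X] F] [Algebra K F]
    (hT : IsTower k k' K F) (hk : ringChar k ≠ 2) :
    (∀ (a b D : k[X]) (M : Set ℕ) (S : Subring k), Good a b → InertIn a b D →
      NonResidue M S (b * (a ^ 2 - 4 * b) * D) →
      TateForComposites k' K F M S (a * D) (b * D ^ 2)) ∧
    (∀ (a b : k[X]) (ℓ : ℕ) (S : Subring k) (η : ℝ), Good a b → ℓ.Prime → ℓ ≠ 2 →
      ℓ ∣ Fintype.card k - 1 → (∀ (c : k) (g : k[X]), b * (a ^ 2 - 4 * b) ≠ C c * g ^ 2) →
      NonResidue {ℓ} S (b * (a ^ 2 - 4 * b)) → 0 < η →
      ∃ n0 : ℕ, ∀ n : ℕ, n0 ≤ n → ∃ T : Finset k[X],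
        (∀ D ∈ T, D.Monic ∧ Irreducible D ∧ D.natDegree = n ∧
          TateForComposites k' K F {ℓ} S (a * D) (b * D ^ 2)) ∧
        (1 / 4 * (1 - (Nat.card S : ℝ) / (ℓ : ℝ)) - η) * (Fintype.card k : ℝ) ^ n ≤
          n * T.card) :=
  ⟨fun _ _ _ _ _ hG hD hN _ hh _ he =>
      main hT (Ring.two_ne_zero hk) hG.1 hG.2.1 hG.2.2.1 hG.2.2.2 hD hN hh he,
    fun _ _ _ S _ hG hℓ hℓ2 hℓk hbd hN hη =>
      prime_twists hT hk hG.1 hG.2.1 hbd hG.2.2.1 hG.2.2.2 hℓ hℓ2 hℓk S hN hη⟩

end Pool.Agent.Results.MP_8ac872_ag.CompositeCovers
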