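import Pool.Agent.R905.RF.Surf

/-!
# The Tate conjecture for divisors and the field of rational functions in three variables
-/

set_option autoImplicit false

namespace Pool.Agent.Results.MP_8ac872_ag.FieldInThreeVariables

open Pool.Agent.R905.RF

/-- Let `F` be a finite field and `K = ℚ_ℓ`, `ℓ` a prime which is not zero in `F`. The following
statements are equivalent:

1. `H^3(F_0 𝔸^3, ℚ_ℓ(2))^G = 0`, where `F_0 𝔸^3` is the generic point of affine space over the algebraic
   closure of `F` and `G` is the Galois group of `F`: each invariant class in `H^3(Ū, ℚ_ℓ(2))`, `U` open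
   in `𝔸^3`, vanishes on a smaller nonempty open subset;
2. `H^2(F_0 X̄, ℚ_ℓ(1))^G = 0` for all irreducible surfaces `X` over `F`;
3. for all varieties `Y` of positive dimension in the class `S`, such as the class of smooth projective
   varieties, the invariants of `G` in `H^2(Ȳ, ℚ_ℓ(1))` are spanned by the classes of divisors, and
   their dimension is the multiplicity of the eigenvalue one (of the eigenvalue `q` on
   `H^2(Ȳ, ℚ_ℓ)`).

`hM` is the reduction of (3) to surfaces (de Jong, Morrow). -/
theorem result (F : Type) [Field F] [Finite F] (K : Type) [Field K] (T : Theory F K)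
    (hT : T.IsBorelMoore) (hF : HypersurfaceModels F) (S : Var F → Prop)
    (hS : T.Dominating S 1 2) (hM : T.TateSemisimple S 1 2 → T.TateForDivisors S) :
    [T.NoGenericInvariants (affineSpace F 3) 3 1, T.FunctionFields 1 2,
      T.TateForDivisors S].TFAE :=
  Theory.tfae_divisors hT hF hS hM

end Pool.Agent.Results.MP_8ac872_ag.FieldInThreeVariables
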