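import Mathlib
import Pool.Agent.TH115.GD.Defs
import Pool.Agent.TH115.ID.Defs
import Pool.Agent.R939.EI.Tw1
import Pool.Agent.R939.KM.Fin

/-!
# The Tate conjecture in the towers `k(t ^ (1 / ℓ ^ j))` for many twists by primes

Let `k` be a finite field with `q` elements, `q` odd, `K = k(t)`, `F = k^sep(t)`, and let
`E : y² = x (x² + a x + b)` be an elliptic curve over `K` with a rational point of order two, `a`, `b`
polynomials. `TateAtTwo` says that all the classes in `V₂ Sel(E / F)` which are fixed by the Galois
group of `k` come from `E(K)`: the Tate conjecture for divisors at the prime 2 on the elliptic surface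
over the projective line with generic fibre `E`; over a finite field this gives both equalities of the
conjecture for all primes, the finiteness of the Brauer group and the conjecture of Birch and
Swinnerton-Dyer for `E`.

Theorem. Let `b` and `a² - 4 b` satisfy the condition `NotNorm` (not a constant times a square or times
a norm of a polynomial over the quadratic extension of `k`), let their product be not a constant times
a square, and let `OnlyTrivial` hold for `(a, b)` and for `(-2 a, a² - 4 b)`, the curve isogenous to
`E`. All this holds for example if `b` and `a² - 4 b` are irreducible of odd degree and `b` does not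
divide `a`. Let `ℓ` be an odd prime which divides `q - 1`, and suppose that no root of
`b (a² - 4 b)` is an `ℓ`-th power in the field generated by it. Then for each `η > 0` and all
`n ≥ n₀(η)` there are at least `((1 - 1 / ℓ) / 4 - η) q^n / n` monic irreducible polynomials `D` of
degree `n` (there are about `q^n / n` such polynomials) such that for all `j` at the same time the Tate
conjecture at 2 holds for the base change by `t ↦ t ^ (ℓ ^ j)` of the quadratic twist
`y² = x (x² + a D x + b D²)`, and for its twists by constants `c`.

So for about `(1 - 1 / ℓ) / 4` of the twists by primes the conjecture holds at all the layers of the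
tower `K(t ^ (1 / ℓ)) ⊂ K(t ^ (1 / ℓ²)) ⊂ …`, in which the genus of the surfaces tends to infinity.

Proof. The criterion of `Pool.Agent.R939.EI.Tw1` applies if `b` and `a² - 4 b` are not squares modulo
`D` and the primes which divide `b (a² - 4 b) D` remain prime after `t ↦ t ^ (ℓ ^ j)`; by the theorem
of Vahlen and Capelli the latter holds for all `j` if the roots are not `ℓ`-th powers. The points `x` of
the extension of `k` of degree `n` at which both polynomials take values which are not squares are
counted with the bound of Weil for quadratic character sums (`Pool.Agent.H341R2.Stepanov`), and so are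
the `y` such that `x = y ^ ℓ` has this property, with the polynomials `b (t ^ ℓ)` and
`(a² - 4 b) (t ^ ℓ)`: these are not constants times squares since `ℓ` is odd.
-/

namespace Pool.Agent.Results.MP_8ac872_ag.PrimeTwistsInTowers

open Polynomial Pool.Agent.TH115.GD Pool.Agent.R939.EI

theorem result {k k' K F : Type} [Field k] [Fintype k] [Field k'] [Algebra k k'] [Field K]
    [Algebra k[X] K] [Field F] [Algebra k'[X] F] [IsFractionRing k'[X] F] [Algebra K F]
    (hT : IsTower k k' K F) (hk : ringChar k ≠ 2) {a b : k[X]}
    (hNb : NotNorm b) (hNd : NotNorm (a ^ 2 - 4 * b))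
    (hbd : ∀ (c : k) (g : k[X]), b * (a ^ 2 - 4 * b) ≠ C c * g ^ 2)
    (hO : OnlyTrivial a b) (hO' : OnlyTrivial (-2 * a) (a ^ 2 - 4 * b))
    {ℓ : ℕ} (hℓ : ℓ.Prime) (hℓ2 : ℓ ≠ 2) (hℓk : ℓ ∣ Fintype.card k - 1)
    (hp : ∀ π : k[X], Irreducible π → π ∣ b * (a ^ 2 - 4 * b) →
      ∀ y : AdjoinRoot π, y ^ ℓ ≠ AdjoinRoot.root π) {η : ℝ} (hη : 0 < η) :
    ∃ n0 : ℕ, ∀ n : ℕ, n0 ≤ n → ∃ T : Finset k[X],
      (∀ D ∈ T, D.Monic ∧ Irreducible D ∧ D.natDegree = n ∧
        ∀ (c : k) (j : ℕ), c ≠ 0 →
          TateAtTwo (F := F) k' (crvT (algebraMap k[X] K ((C c * (a * D)).comp (X ^ (ℓ ^ j))))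
            (algebraMap k[X] K ((C (c ^ 2) * (b * D ^ 2)).comp (X ^ (ℓ ^ j)))))) ∧
      (1 / 4 * (1 - 1 / (ℓ : ℝ)) - η) * (Fintype.card k : ℝ) ^ n ≤ n * T.card :=
  Pool.Agent.R939.KM.kummer_prime_twists hT hk hNb hNd hbd hO hO' hℓ hℓ2 hℓk hp hη

end Pool.Agent.Results.MP_8ac872_ag.PrimeTwistsInTowers
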